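import Mathlib

set_option autoImplicit false

namespace Pool.Agent.Helper830.FC

open Finset Classical


theorem window {V : Type*} [Fintype V] (G : SimpleGraph V) (d ρ K : ℕ) (hρ : 1 ≤ ρ)
    (hK : 16 * d ≤ 2 ^ K) (hK1 : 1 ≤ K)
    (hd : ∀ v, (univ.filter (fun u => G.Adj v u)).card ≤ d)
    (hind : ∀ S : Finset V, ∃ I, I ⊆ S ∧ (∀ x ∈ I, ∀ y ∈ I, ¬ G.Adj x y) ∧ S.card ≤ ρ * I.card)
    (w : V → ℝ) (r : ℤ) (j : V → ℤ) :
    ∀ (N : ℕ) (A : Finset V), A.card = N →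
      (∀ v ∈ A, (2:ℝ) ^ (j v) ≤ w v ∧ w v < (2:ℝ) ^ (j v + 1) ∧ j v % (K : ℤ) = r) →
      ∃ I, I ⊆ A ∧ (∀ x ∈ I, ∀ y ∈ I, ¬ G.Adj x y) ∧
        ∑ v ∈ A, w v ≤ 3 * (ρ : ℝ) * ∑ v ∈ I, w v := by
  intro N
  induction N using Nat.strong_induction_on with
  | _ N ih =>
  intro A hA hw
  rcases A.eq_empty_or_nonempty with hAe | hAne
  · subst hAe
    exact ⟨∅, Finset.Subset.refl _, by simp, by simp⟩
  obtain ⟨a0, ha0, hmax⟩ := Finset.exists_max_image A j hAne
  set J := j a0 with hJ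
  obtain ⟨IJ, hIJ, hIJind, hIJcard⟩ := hind (A.filter (fun v => j v = J))
  set A' := A.filter (fun v => j v ≠ J ∧ ∀ x ∈ IJ, ¬ G.Adj x v) with hA'
  have hA'sub : A' ⊆ A := Finset.filter_subset _ _
  have hA'card : A'.card < N := by
    rw [← hA]
    apply Finset.card_lt_card
    refine ⟨hA'sub, fun h => ?_⟩
    have := h ha0
    rw [hA', Finset.mem_filter] at this
    exact this.2.1 rfl
  obtain ⟨I', hI', hI'ind, hI'sum⟩ := ih _ hA'card A' rfl (fun v hv => hw v (hA'sub hv))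
  have hIJA : ∀ x ∈ IJ, x ∈ A ∧ j x = J := fun x hx => Finset.mem_filter.mp (hIJ hx)
  have hI'A : ∀ x ∈ I', x ∈ A ∧ j x ≠ J ∧ ∀ y ∈ IJ, ¬ G.Adj y x := fun x hx =>
    Finset.mem_filter.mp (hI' hx)
  have hdisj : Disjoint IJ I' := by
    rw [Finset.disjoint_left]
    intro x hx hx'
    exact (hI'A x hx').2.1 (hIJA x hx).2
  refine ⟨IJ ∪ I', ?_, ?_, ?_⟩
  · intro x hx
    rcases Finset.mem_union.mp hx with h | h
    · exact (hIJA x h).1
    · exact (hI'A x h).1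
  · intro x hx y hy
    rcases Finset.mem_union.mp hx with h | h <;> rcases Finset.mem_union.mp hy with h' | h'
    · exact hIJind x h y h'
    · exact (hI'A y h').2.2 x h
    · intro hadj
      exact (hI'A x h).2.2 y h' hadj.symm
    · exact hI'ind x h y h'
  · rw [Finset.sum_union hdisj]
    set s := ∑ v ∈ IJ, w v with hs
    set s' := ∑ v ∈ I', w v with hs'
    set Bad := A.filter (fun v => j v ≠ J ∧ ∃ x ∈ IJ, G.Adj x v) with hBad
    have hJpos : (0 : ℝ) < (2 : ℝ) ^ J := zpow_pos (by norm_num) _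
    have hsge : (2 : ℝ) ^ J * IJ.card ≤ s := by
      rw [hs, mul_comm, ← nsmul_eq_mul, ← Finset.sum_const]
      apply Finset.sum_le_sum
      intro x hx
      have h1 := hIJA x hx
      rw [← h1.2]
      exact (hw x h1.1).1
    have hs0 : 0 ≤ s := le_trans (by positivity) hsge
    have hsplit : ∑ v ∈ A, w v = ∑ v ∈ A.filter (fun v => j v = J), w v +
        (∑ v ∈ A', w v + ∑ v ∈ Bad, w v) := by
      rw [← Finset.sum_filter_add_sum_filter_not A (fun v => j v = J)]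
      congr 1
      rw [← Finset.sum_filter_add_sum_filter_not (A.filter (fun v => ¬ j v = J))
        (fun v => ∀ x ∈ IJ, ¬ G.Adj x v), Finset.filter_filter, Finset.filter_filter]
      congr 1
      rw [hBad]
      apply Finset.sum_congr _ (fun _ _ => rfl)
      ext v
      simp only [Finset.mem_filter]
      push Not
      rfl
    have hAJ : ∑ v ∈ A.filter (fun v => j v = J), w v ≤ 2 * (ρ : ℝ) * s := by
      calc ∑ v ∈ A.filter (fun v => j v = J), w v
          ≤ ∑ v ∈ A.filter (fun v => j v = J), (2 : ℝ) ^ (J + 1) := by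
            apply Finset.sum_le_sum
            intro v hv
            rw [Finset.mem_filter] at hv
            rw [← hv.2]
            exact (hw v hv.1).2.1.le
        _ = ((A.filter (fun v => j v = J)).card : ℝ) * (2 * (2 : ℝ) ^ J) := by
            rw [Finset.sum_const, nsmul_eq_mul, zpow_add_one₀ (by norm_num)]; ring
        _ ≤ ((ρ : ℝ) * IJ.card) * (2 * (2 : ℝ) ^ J) := by
            apply mul_le_mul_of_nonneg_right _ (by positivity)
            exact_mod_cast hIJcard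
        _ = 2 * (ρ : ℝ) * ((2 : ℝ) ^ J * IJ.card) := by ring
        _ ≤ 2 * (ρ : ℝ) * s := mul_le_mul_of_nonneg_left hsge (by positivity)
    have hBadcard : Bad.card ≤ d * IJ.card := by
      have h1 : Bad ⊆ IJ.biUnion (fun x => univ.filter (fun u => G.Adj x u)) := by
        intro v hv
        rw [hBad, Finset.mem_filter] at hv
        obtain ⟨x, hx, hadj⟩ := hv.2.2
        rw [Finset.mem_biUnion]
        exact ⟨x, hx, Finset.mem_filter.mpr ⟨Finset.mem_univ _, hadj⟩⟩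
      calc Bad.card ≤ (IJ.biUnion (fun x => univ.filter (fun u => G.Adj x u))).card :=
            Finset.card_le_card h1
        _ ≤ ∑ x ∈ IJ, (univ.filter (fun u => G.Adj x u)).card := Finset.card_biUnion_le
        _ ≤ ∑ x ∈ IJ, d := Finset.sum_le_sum (fun x _ => hd x)
        _ = d * IJ.card := by rw [Finset.sum_const, smul_eq_mul, mul_comm]
    have hBadw : ∀ v ∈ Bad, w v ≤ (2 : ℝ) ^ (J + 1) / (2 : ℝ) ^ K := by
      intro v hv
      rw [hBad, Finset.mem_filter] at hv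
      have h1 := hw v hv.1
      have h2 := hw a0 ha0
      have h3 : j v < J := lt_of_le_of_ne (hmax v hv.1) hv.2.1
      have h4 : (K : ℤ) ∣ J - j v := by
        have : j v % (K : ℤ) = J % (K : ℤ) := by rw [h1.2.2]; exact h2.2.2.symm
        exact Int.ModEq.dvd this
      have h5 : (K : ℤ) ≤ J - j v := Int.le_of_dvd (by omega) h4
      calc w v ≤ (2 : ℝ) ^ (j v + 1) := h1.2.1.le
        _ ≤ (2 : ℝ) ^ (J + 1 - (K : ℤ)) := zpow_le_zpow_right₀ (by norm_num) (by omega)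
        _ = (2 : ℝ) ^ (J + 1) / (2 : ℝ) ^ K := by
            rw [zpow_sub₀ (by norm_num), zpow_natCast]
    have hBadsum : ∑ v ∈ Bad, w v ≤ (1 / 8) * s := by
      have hKr : (16 : ℝ) * d ≤ (2 : ℝ) ^ K := by exact_mod_cast hK
      have hKpos : (0 : ℝ) < (2 : ℝ) ^ K := by positivity
      calc ∑ v ∈ Bad, w v ≤ ∑ v ∈ Bad, (2 : ℝ) ^ (J + 1) / (2 : ℝ) ^ K :=
            Finset.sum_le_sum hBadw
        _ = (Bad.card : ℝ) * ((2 * (2 : ℝ) ^ J) / (2 : ℝ) ^ K) := by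
            rw [Finset.sum_const, nsmul_eq_mul, zpow_add_one₀ (by norm_num)]
            ring
        _ ≤ ((d : ℝ) * IJ.card) * ((2 * (2 : ℝ) ^ J) / (2 : ℝ) ^ K) := by
            apply mul_le_mul_of_nonneg_right _ (by positivity)
            exact_mod_cast hBadcard
        _ = (d : ℝ) / (2 : ℝ) ^ K * (2 * ((2 : ℝ) ^ J * IJ.card)) := by ring
        _ ≤ (1 / 16) * (2 * ((2 : ℝ) ^ J * IJ.card)) := by
            apply mul_le_mul_of_nonneg_right _ (by positivity)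
            rw [div_le_iff₀ hKpos]
            linarith
        _ = (1 / 8) * ((2 : ℝ) ^ J * IJ.card) := by ring
        _ ≤ (1 / 8) * s := mul_le_mul_of_nonneg_left hsge (by norm_num)
    rw [hsplit]
    have hρr : (1 : ℝ) ≤ ρ := by exact_mod_cast hρ
    have : (1 / 8) * s ≤ (ρ : ℝ) * s := mul_le_mul_of_nonneg_right (by linarith) hs0
    rw [mul_add]
    linarith



/-- pigeonhole over the residue classes of the scales -/
theorem weighted {V : Type*} [Fintype V] (G : SimpleGraph V) (ρ K : ℕ) (hK1 : 1 ≤ K)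
    (w : V → ℝ) (hw : ∀ v, 0 < w v)
    (hwin : ∀ (r : ℤ) (j : V → ℤ) (A : Finset V),
      (∀ v ∈ A, (2:ℝ) ^ (j v) ≤ w v ∧ w v < (2:ℝ) ^ (j v + 1) ∧ j v % (K : ℤ) = r) →
      ∃ I, I ⊆ A ∧ (∀ x ∈ I, ∀ y ∈ I, ¬ G.Adj x y) ∧
        ∑ v ∈ A, w v ≤ 3 * (ρ : ℝ) * ∑ v ∈ I, w v) :
    ∃ I : Finset V, (∀ x ∈ I, ∀ y ∈ I, ¬ G.Adj x y) ∧
        ∑ v, w v ≤ 3 * (ρ : ℝ) * K * ∑ v ∈ I, w v := by
  have hKz : (0:ℤ) < K := by exact_mod_cast hK1
  let j : V → ℤ := fun v => Int.log 2 (w v)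
  let f : ℕ → ℝ := fun r => ∑ v ∈ univ.filter (fun v => (j v % (K:ℤ)).toNat = r), w v
  have hsum : ∑ v, w v = ∑ r ∈ range K, f r := by
    refine (Finset.sum_fiberwise_of_maps_to (g := fun v => (j v % (K:ℤ)).toNat) ?_ w).symm
    intro v _
    rw [Finset.mem_range]
    have h1 := Int.emod_lt_of_pos (j v) hKz
    have h2 := Int.emod_nonneg (j v) hKz.ne'
    omega
  obtain ⟨r, hr, hmax⟩ := Finset.exists_max_image (range K) f ⟨0, Finset.mem_range.2 (by omega)⟩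
  have hle : ∑ v, w v ≤ K * f r := by
    rw [hsum]
    calc ∑ r ∈ range K, f r ≤ ∑ _r ∈ range K, f r := Finset.sum_le_sum hmax
      _ = K * f r := by rw [Finset.sum_const, Finset.card_range, nsmul_eq_mul]
  obtain ⟨I, hIA, hI, hIs⟩ := hwin r j (univ.filter (fun v => (j v % (K:ℤ)).toNat = r)) (by
    intro v hv
    rw [Finset.mem_filter] at hv
    have h2 := Int.emod_nonneg (j v) hKz.ne'
    have h3 := Int.zpow_log_le_self (R := ℝ) (b := 2) (by norm_num) (hw v)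
    have h4 := Int.lt_zpow_succ_log_self (R := ℝ) (b := 2) (by norm_num) (w v)
    refine ⟨by exact_mod_cast h3, by exact_mod_cast h4, ?_⟩
    have h5 := hv.2
    omega)
  refine ⟨I, hI, ?_⟩
  have hK0 : (0:ℝ) ≤ K := Nat.cast_nonneg K
  calc ∑ v, w v ≤ K * f r := hle
    _ ≤ K * (3 * (ρ : ℝ) * ∑ v ∈ I, w v) := mul_le_mul_of_nonneg_left hIs hK0
    _ = 3 * (ρ : ℝ) * K * ∑ v ∈ I, w v := by ring



theorem mwu_aux {V : Type*} [Fintype V] (P : Finset V → Prop) (κ : ℕ) (hκ : 1 ≤ κ)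
    (h : ∀ w : V → ℝ, (∀ v, 0 < w v) → ∃ I : Finset V, P I ∧
        ∑ v, w v ≤ κ * ∑ v ∈ I, w v) (T : ℕ) :
    ∃ I : Fin T → Finset V, (∀ i, P (I i)) ∧
      ∑ v, (1 / 2 : ℝ) ^ (univ.filter (fun i => v ∈ I i)).card
        ≤ (Fintype.card V : ℝ) * (1 - 1 / (2 * (κ : ℝ))) ^ T := by
  have hκ0 : (0 : ℝ) < κ := by exact_mod_cast hκ
  induction T with
  | zero =>
    refine ⟨fun i => i.elim0, fun i => i.elim0, ?_⟩
    simp
  | succ T ih =>
    obtain ⟨I, hI, hs⟩ := ih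
    obtain ⟨w, hw⟩ : ∃ w : V → ℝ, w = fun v =>
      (1 / 2 : ℝ) ^ (univ.filter (fun i => v ∈ I i)).card := ⟨_, rfl⟩
    have hwpos : ∀ v, 0 < w v := by intro v; rw [hw]; positivity
    obtain ⟨J, hJ, hJs⟩ := h w hwpos
    refine ⟨Fin.cons J I, ?_, ?_⟩
    · intro i
      refine Fin.cases ?_ ?_ i
      · simpa using hJ
      · intro j; simpa using hI j
    · have h1 : ∀ v, (1 / 2 : ℝ) ^ (univ.filter
          (fun i : Fin (T + 1) => v ∈ (Fin.cons J I : Fin (T + 1) → Finset V) i)).card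
          = w v - (1 / 2) * (if v ∈ J then w v else 0) := by
        intro v
        rw [Fin.card_filter_univ_succ]
        simp only [Fin.cons_zero, Function.comp_def, Fin.cons_succ]
        split_ifs with hv
        · rw [pow_succ, hw]; ring
        · rw [hw]; ring
      rw [Finset.sum_congr rfl (fun v _ => h1 v), Finset.sum_sub_distrib, ← Finset.mul_sum,
        Finset.sum_ite_mem, Finset.univ_inter]
      have h2 : ∑ v, w v ≤ (Fintype.card V : ℝ) * (1 - 1 / (2 * (κ : ℝ))) ^ T := by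
        rw [hw]; exact hs
      have h3 : (∑ v, w v) / κ ≤ ∑ v ∈ J, w v := by
        rw [div_le_iff₀ hκ0]; linarith
      have h4 : 0 ≤ 1 - 1 / (2 * (κ : ℝ)) := by
        have h5 : (1 : ℝ) ≤ κ := by exact_mod_cast hκ
        have h6 : 1 / (2 * (κ : ℝ)) ≤ 1 := by
          rw [div_le_one (by positivity)]; linarith
        linarith
      calc ∑ v, w v - 1 / 2 * ∑ v ∈ J, w v
          ≤ ∑ v, w v - 1 / 2 * ((∑ v, w v) / κ) := by linarith
        _ = (∑ v, w v) * (1 - 1 / (2 * (κ : ℝ))) := by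
            field_simp
        _ ≤ ((Fintype.card V : ℝ) * (1 - 1 / (2 * (κ : ℝ))) ^ T) * (1 - 1 / (2 * (κ : ℝ))) :=
            mul_le_mul_of_nonneg_right h2 h4
        _ = (Fintype.card V : ℝ) * (1 - 1 / (2 * (κ : ℝ))) ^ (T + 1) := by
            rw [pow_succ]; ring

/-- multiplicative weights: from weighted independent sets to a fractional colouring -/
theorem mwu {V : Type*} [Fintype V] (P : Finset V → Prop) (κ : ℕ) (hκ : 1 ≤ κ)
    (h : ∀ w : V → ℝ, (∀ v, 0 < w v) → ∃ I : Finset V, P I ∧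
        ∑ v, w v ≤ κ * ∑ v ∈ I, w v) :
    ∃ (T : ℕ) (I : Fin T → Finset V), 0 < T ∧ (∀ i, P (I i)) ∧
      ∀ v, T ≤ 4 * κ * (univ.filter (fun i => v ∈ I i)).card := by
  have hκ0 : (0 : ℝ) < κ := by exact_mod_cast hκ
  have hκ1 : (1 : ℝ) ≤ κ := by exact_mod_cast hκ
  obtain ⟨T0, hT0⟩ := exists_nat_ge (4 * (κ : ℝ) * Real.log ((Fintype.card V : ℝ) + 1))
  obtain ⟨T, hT, hT1⟩ : ∃ T : ℕ, 4 * (κ : ℝ) * Real.log ((Fintype.card V : ℝ) + 1) ≤ T ∧ 0 < T := by
    refine ⟨T0 + 1, ?_, Nat.succ_pos _⟩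
    push_cast; linarith
  obtain ⟨I, hI, hs⟩ := mwu_aux P κ hκ h T
  refine ⟨T, I, hT1, hI, fun v => ?_⟩
  obtain ⟨c, hc⟩ : ∃ c : ℕ, c = (univ.filter (fun i => v ∈ I i)).card := ⟨_, rfl⟩
  rw [← hc]
  have h1 : (1 / 2 : ℝ) ^ c ≤ ∑ v, (1 / 2 : ℝ) ^ (univ.filter (fun i => v ∈ I i)).card := by
    rw [hc]
    exact Finset.single_le_sum (f := fun v => (1 / 2 : ℝ) ^ (univ.filter (fun i => v ∈ I i)).card)
      (fun i _ => by positivity) (Finset.mem_univ v)
  have h2 : (1 - 1 / (2 * (κ : ℝ))) ^ T ≤ Real.exp (-((T : ℝ) / (2 * κ))) := by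
    have h4 : 0 ≤ 1 - 1 / (2 * (κ : ℝ)) := by
      have h6 : 1 / (2 * (κ : ℝ)) ≤ 1 := by
        rw [div_le_one (by positivity)]; linarith
      linarith
    have h5 := pow_le_pow_left₀ h4 (Real.one_sub_le_exp_neg (1 / (2 * (κ : ℝ)))) T
    refine h5.trans (le_of_eq ?_)
    rw [← Real.exp_nat_mul]
    congr 1
    ring
  have h3 : (Fintype.card V : ℝ) ≤ Real.exp ((T : ℝ) / (4 * κ)) := by
    have h6 : Real.log ((Fintype.card V : ℝ) + 1) ≤ (T : ℝ) / (4 * κ) := by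
      rw [le_div_iff₀ (by positivity)]; linarith
    have h7 : (0 : ℝ) < (Fintype.card V : ℝ) + 1 := by positivity
    have h8 := (Real.log_le_iff_le_exp h7).1 h6
    linarith
  have h4 : (1 / 2 : ℝ) ^ c ≤ Real.exp (-((T : ℝ) / (4 * κ))) := by
    calc (1 / 2 : ℝ) ^ c ≤ (Fintype.card V : ℝ) * (1 - 1 / (2 * (κ : ℝ))) ^ T := h1.trans hs
      _ ≤ (Fintype.card V : ℝ) * Real.exp (-((T : ℝ) / (2 * κ))) :=
          mul_le_mul_of_nonneg_left h2 (by positivity)
      _ ≤ Real.exp ((T : ℝ) / (4 * κ)) * Real.exp (-((T : ℝ) / (2 * κ))) :=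
          mul_le_mul_of_nonneg_right h3 (Real.exp_nonneg _)
      _ = Real.exp (-((T : ℝ) / (4 * κ))) := by
          rw [← Real.exp_add]
          congr 1
          field_simp
          ring
  have h5 : Real.exp (-(c : ℝ)) ≤ (1 / 2 : ℝ) ^ c := by
    have h6 : Real.exp (-1) ≤ 1 / 2 := by
      rw [Real.exp_neg, one_div]
      apply inv_anti₀ (by norm_num)
      have := Real.add_one_le_exp (1 : ℝ)
      linarith
    have h7 := pow_le_pow_left₀ (Real.exp_nonneg _) h6 c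
    rw [← Real.exp_nat_mul] at h7
    have h8 : (c : ℝ) * -1 = -(c : ℝ) := by ring
    rwa [h8] at h7
  have h6 : (T : ℝ) / (4 * κ) ≤ c := by
    have := Real.exp_le_exp.1 (h5.trans h4)
    linarith
  rw [div_le_iff₀ (by positivity)] at h6
  have h7 : (T : ℝ) ≤ ((4 * κ * c : ℕ) : ℝ) := by
    push_cast; linarith
  exact_mod_cast h7

theorem main {V : Type*} [Fintype V] (G : SimpleGraph V) (d ρ : ℕ) (hρ : 1 ≤ ρ)
    (hd : ∀ v, (G.neighborSet v).ncard ≤ d)
    (hI : ∀ S : Finset V, ∃ I : Finset V, I ⊆ S ∧ G.IsIndepSet ↑I ∧ S.card ≤ ρ * I.card) :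
    ∃ (T : ℕ) (I : Fin T → Finset V), 0 < T ∧ (∀ i, G.IsIndepSet ↑(I i)) ∧
        ∀ v, T ≤ 12 * ρ * (Nat.log 2 d + 5) * {i | v ∈ I i}.ncard := by
  have key : ∀ I : Finset V, (∀ x ∈ I, ∀ y ∈ I, ¬ G.Adj x y) ↔ G.IsIndepSet ↑I := by
    intro I
    constructor
    · intro h x hx y hy _
      exact h x hx y hy
    · intro h x hx y hy hxy
      exact h hx hy hxy.ne hxy
  have hd' : ∀ v, (univ.filter (fun u => G.Adj v u)).card ≤ d := by
    intro v
    refine le_trans (le_of_eq ?_) (hd v)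
    rw [← Set.ncard_coe_finset]
    congr 1
    ext u
    simp
  have hind : ∀ S : Finset V, ∃ I, I ⊆ S ∧ (∀ x ∈ I, ∀ y ∈ I, ¬ G.Adj x y)
      ∧ S.card ≤ ρ * I.card := by
    intro S
    obtain ⟨I, h1, h2, h3⟩ := hI S
    exact ⟨I, h1, (key I).mpr h2, h3⟩
  have hK : 16 * d ≤ 2 ^ (Nat.log 2 d + 5) := by
    have : d < 2 ^ (Nat.log 2 d + 1) := Nat.lt_pow_succ_log_self (by norm_num) d
    calc 16 * d ≤ 16 * 2 ^ (Nat.log 2 d + 1) := Nat.mul_le_mul_left _ this.le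
      _ = 2 ^ (Nat.log 2 d + 5) := by rw [pow_add, pow_add]; ring
  obtain ⟨T, I, hT, hP, hcov⟩ := mwu (fun I : Finset V => ∀ x ∈ I, ∀ y ∈ I, ¬ G.Adj x y)
    (3 * ρ * (Nat.log 2 d + 5)) (Nat.mul_pos (by omega) (by omega)) (by
      intro w hw
      obtain ⟨I, h1, h2⟩ := weighted G ρ (Nat.log 2 d + 5) (by omega) w hw (by
        intro r j A hA
        exact window G d ρ _ hρ hK (by omega) hd' hind w r j A.card A rfl hA)
      refine ⟨I, h1, h2.trans (le_of_eq ?_)⟩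
      push_cast
      ring)
  refine ⟨T, I, hT, fun i => (key _).mp (hP i), fun v => (hcov v).trans (le_of_eq ?_)⟩
  have : {i | v ∈ I i}.ncard = (univ.filter (fun i => v ∈ I i)).card := by
    rw [← Set.ncard_coe_finset]
    congr 1
    ext i
    simp
  rw [this]
  ring

end Pool.Agent.Helper830.FC
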